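import Pool.Agent.LegRe.Main3

namespace Pool.Agent.Results.MP_03befd_an.LpInRearrangementHull

open MeasureTheory Set Polynomial

/-- The interval `[-1,1]`. -/
abbrev I : Type := Icc (-1 : ℝ) 1

/-- Lebesgue measure on `[-1,1]`. -/
noncomputable def leb : Measure I := (volume : Measure ℝ).comap Subtype.val

/-- `p` is a sequence of Legendre polynomials normalised to be orthonormal in `L²[-1,1]`:
`p n` has degree `n` and `∫ p m * p n = 1` if `m = n`, and `0` otherwise. -/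
def OrthonormalLegendre (p : ℕ → ℝ[X]) : Prop :=
  (∀ n, (p n).natDegree = n) ∧
    ∀ m n, ∫ x : I, (p m).eval (x : ℝ) * (p n).eval (x : ℝ) ∂leb = if m = n then 1 else 0

/-- The partial sum `S_n f = ∑_{k ≤ n} (∫ f p_k) p_k`. -/
noncomputable def partialSum (p : ℕ → ℝ[X]) (n : ℕ) (f : I → ℝ) (x : I) : ℝ :=
  ∑ k ∈ Finset.range (n + 1), (∫ y : I, f y * (p k).eval (y : ℝ) ∂leb) * (p k).eval (x : ℝ)

/-- The maximal function `S^* f = sup_n |S_n f|`, with values in `[0, ∞]`. -/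
noncomputable def maxSum (p : ℕ → ℝ[X]) (f : I → ℝ) (x : I) : ENNReal :=
  ⨆ n : ℕ, ENNReal.ofReal |partialSum p n f x|

/-- The class `A = {f ∈ L¹ : S^* f ∈ L¹}`. -/
def classA (p : ℕ → ℝ[X]) : Set (I → ℝ) :=
  {f | Integrable f leb ∧ ∫⁻ x, maxSum p f x ∂leb < ⊤}

/-- `Ω_ε`: the measurable bijections of `[-1,1]` onto itself, with measurable inverse, that preserve
Lebesgue measure and move a set of measure at most `ε`. -/
def Omega (ε : ℝ) : Set (I ≃ᵐ I) :=
  {ω | MeasurePreserving ω leb leb ∧ leb {x | ω x ≠ x} ≤ ENNReal.ofReal ε}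

/-- `R_ε(A) = {f ∘ ω : f ∈ A, ω ∈ Ω_ε}`. -/
def R (ε : ℝ) (A : Set (I → ℝ)) : Set (I → ℝ) :=
  {g | ∃ f ∈ A, ∃ ω ∈ Omega ε, g = fun x => f (ω x)}

/-- `RH_0(A) = ⋂_{ε > 0} R_ε(A)`. -/
def RH0 (A : Set (I → ℝ)) : Set (I → ℝ) := {g | ∀ ε : ℝ, 0 < ε → g ∈ R ε A}

/-- `L^r ⊆ RH_0(A)` for every `r > 1`, in particular for `r = 8/7`. -/
theorem result : (∃ p : ℕ → ℝ[X], OrthonormalLegendre p) ∧
    ∀ p : ℕ → ℝ[X], OrthonormalLegendre p → ∀ r : ℝ, 1 < r →
      ∀ f : I → ℝ, MemLp f (ENNReal.ofReal r) leb → f ∈ RH0 (classA p) := by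
  have hiff : ∀ p : ℕ → ℝ[X], OrthonormalLegendre p ↔ Pool.Agent.LegRe.OrthoLeg p := by
    intro p
    unfold OrthonormalLegendre Pool.Agent.LegRe.OrthoLeg
    have e : ∀ m n, ∫ x : I, (p m).eval (x : ℝ) * (p n).eval (x : ℝ) ∂leb =
        ∫ x in (-1:ℝ)..1, (p m).eval x * (p n).eval x := by
      intro m n
      rw [intervalIntegral.integral_of_le (by norm_num), ← integral_Icc_eq_integral_Ioc]
      exact integral_subtype_comap measurableSet_Icc
        (fun x : ℝ => (p m).eval x * (p n).eval x)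
    simp_rw [e]
  refine ⟨?_, ?_⟩
  · obtain ⟨p, hp⟩ := Pool.Agent.LegRe.exists_orthoLeg
    exact ⟨p, (hiff p).mpr hp⟩
  · intro p hp r hr f hf ε hε
    obtain ⟨ω, h1, h2, h3, h4⟩ := Pool.Agent.LegRe.main_sub ((hiff p).mp hp) hr hf hε
    refine ⟨fun x => f (ω x), ⟨h3, h4⟩, ω.symm, ⟨h1.symm, ?_⟩, ?_⟩
    · have e : {x | ω.symm x ≠ x} = {x | ω x ≠ x} := by
        ext x
        change ω.symm x ≠ x ↔ ω x ≠ x
        rw [not_iff_not]
        constructor
        · intro h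
          conv_lhs => rw [← h]
          exact ω.apply_symm_apply x
        · intro h
          conv_lhs => rw [← h]
          exact ω.symm_apply_apply x
      rw [e]
      exact h2
    · funext x
      simp

end Pool.Agent.Results.MP_03befd_an.LpInRearrangementHull
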